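import Pool.Agent.helper22.GS.Spec

/-!
# Project gs:, module FO
-/

set_option autoImplicit false

namespace Pool.Agent.GS

open Module

theorem FO (hMX : MX_stmt) (hCN : CN_stmt) : FO_stmt := by
  intro n F _ _ hn
  obtain ⟨hB, hfr, φ, hφ, hran, hact, -⟩ := hMX n F (by omega)
  obtain ⟨w, hw⟩ : ∃ w : Fin n ⊕ Fin n → F, w ≠ 0 :=
    ⟨Pi.single (Sum.inl ⟨0, by omega⟩) 1, by
      intro h
      have := congrFun h (Sum.inl ⟨0, by omega⟩)
      simp at this⟩
  have hmem : tv (BJ n F) w 1 ∈ φ.range := by
    rw [hran]; exact tv_mem hB w 1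
  obtain ⟨t, ht⟩ := hmem
  refine ⟨t, w, 1, fun v => by rw [← hact, ht], ?_, ?_⟩
  · refine ⟨Units.map (Matrix.symplecticGroup (Fin n) F).subtype (toUnits t),
      RingEquiv.refl F, 1, ?_, ?_⟩
    · rw [one_smul]
      exact SymplecticGroup.mem_iff.1 t.2
    · intro g h hgh
      have e : h = t * g * t⁻¹ := by
        apply Subtype.ext
        rw [hgh]
        have h1 : (g : Matrix (Fin n ⊕ Fin n) (Fin n ⊕ Fin n) F).map (RingEquiv.refl F) =
            (g : Matrix (Fin n ⊕ Fin n) (Fin n ⊕ Fin n) F) := by
          ext i j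
          rfl
        rw [h1]
        rfl
      rw [e]
      rfl
  · have hp : (ringChar F).Prime := CharP.char_is_prime F (ringChar F)
    have : Fact (ringChar F).Prime := ⟨hp⟩
    refine orderOf_eq_prime ?_ ?_
    · have h1 : t ^ ringChar F = 1 := by
        apply hφ
        rw [map_pow, ht, tv_pow hB, map_one, mul_one, ringChar.Nat.cast_ringChar, tv_zero hB]
      rw [← map_pow, ← QuotientGroup.mk_pow, h1, QuotientGroup.mk_one, map_one]
    · intro hx
      have hcen : ∀ u ∈ Subgroup.center (Matrix.symplecticGroup (Fin n) F),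
          ∃ c : F, ∀ v, φ u v = c • v := by
        intro u hu
        refine hCN (BJ n F) hB (by rw [hfr]; omega) (φ u) (by rw [← hran]; exact ⟨u, rfl⟩) ?_
        intro g' hg'
        rw [← hran] at hg'
        obtain ⟨g, rfl⟩ := hg'
        refine ⟨1, fun v => ?_⟩
        have h1 : u * g * u⁻¹ * g⁻¹ = 1 := by
          rw [← Subgroup.mem_center_iff.1 hu g]
          group
        rw [← map_inv, ← map_inv, ← map_mul, ← map_mul, ← map_mul, h1, map_one, one_smul]
        rfl
      obtain ⟨c, hc⟩ := hCN (BJ n F) hB (by rw [hfr]; omega) (φ t) (by rw [← hran]; exact ⟨t, rfl⟩) (by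
        intro g' hg'
        rw [← hran] at hg'
        obtain ⟨g, rfl⟩ := hg'
        rw [← map_inv, ← map_inv, ← map_mul, ← map_mul, ← map_mul]
        apply hcen
        rw [← QuotientGroup.eq_one_iff]
        have h2 := DFunLike.congr_fun hx (QuotientGroup.mk g)
        rw [MulAut.conj_apply, MulAut.one_apply] at h2
        rw [QuotientGroup.mk_mul, QuotientGroup.mk_mul, QuotientGroup.mk_mul, QuotientGroup.mk_inv,
          QuotientGroup.mk_inv, h2, mul_inv_cancel])
      have h3 := hc w
      rw [ht, tv_apply hB, hB.alt, mul_zero, zero_smul, add_zero] at h3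
      have hc1 : c = 1 := by
        have h4 : (c - 1) • w = 0 := by rw [sub_smul, one_smul, ← h3, sub_self]
        rcases smul_eq_zero.1 h4 with h5 | h5
        · exact sub_eq_zero.1 h5
        · exact absurd h5 hw
      apply hw
      apply hB.nd
      intro v
      have h6 := hc v
      rw [ht, tv_apply hB, hc1, one_smul, one_mul] at h6
      have h7 : (BJ n F v w) • w = 0 := by simpa using h6
      rcases smul_eq_zero.1 h7 with h8 | h8
      · rw [hB.neg, h8, neg_zero]
      · exact absurd h8 hw

end Pool.Agent.GS
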